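import Mathlib
import Pool.Agent.Q187.Sim.Main

set_option autoImplicit false

/-!
# A dimension spectrum of none of the three types

`Pool.Agent.Q187.Sim.CIFS E` is the structure of conformal iterated function systems (Mauldin and
Urbański) on the line with alphabet `E`, `CIFS.J S F` is the limit set of the subsystem `F` and
`locDim F x` is the local Hausdorff dimension. We construct an infinite system of similarities of
the unit interval whose dimension spectrum `DS S` contains `(0, 1/2]`, contains a sequence of points
decreasing to `1/2`, but has Hausdorff dimension zero above every number larger than `1/2`. Hence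
the spectrum is of none of the Types I, II, III.
-/

open Filter Topology Set Pool.Agent.Q187.Sim

namespace Pool.Agent.Results.MP_b5d711_an.NoTrichotomy

/-- the dimension spectrum -/
def DS {E : Type} (S : CIFS E) : Set ℝ := {t | ∃ F : Set E, F.Nonempty ∧ t = (dimH (S.J F)).toReal}

/-- a union of finitely many intervals -/
def TypeI (F : Set ℝ) : Prop :=
  ∃ (n : ℕ) (I : Fin n → Set ℝ), (∀ i, (I i).OrdConnected) ∧ F = ⋃ i, I i

/-- a set of Hausdorff dimension zero -/
def TypeII (F : Set ℝ) : Prop := dimH F = 0

/-- the local dimension at `x` is `min (1, c / x)` for some `0 < c < sup F` -/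
def TypeIII (F : Set ℝ) : Prop :=
  ∃ c : ℝ, 0 < c ∧ c < sSup F ∧
    ∀ x ∈ F, locDim F x = min 1 (ENNReal.ofReal c / ENNReal.ofReal x)

instance : Infinite Ed :=
  Infinite.of_injective (fun k : ℕ => (⟨k, ⟨0, by unfold NN; positivity⟩⟩ : Ed)) fun a b h => by
    simpa using congrArg Sigma.fst h

/-- There is a conformal iterated function system on the line with countably infinite alphabet whose
dimension spectrum is of none of the Types I, II, III; moreover for no `c ≥ 0` the local dimension
of the spectrum is `min (1, c / x)` at all its points `x`. -/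
theorem result : ∃ (E : Type) (_ : Countable E) (_ : Infinite E) (S : CIFS E),
    ¬ TypeI (DS S) ∧ ¬ TypeII (DS S) ∧ ¬ TypeIII (DS S) ∧
    ∀ c : ℝ, 0 ≤ c → ∃ x ∈ DS S,
      locDim (DS S) x ≠ min 1 (ENNReal.ofReal c / ENNReal.ofReal x) := by
  have hD : DS BS.toCIFS = Spec := rfl
  have hpos : ∀ c : ℝ, 0 < c → ∃ x ∈ Spec,
      locDim Spec x ≠ min 1 (ENNReal.ofReal c / ENNReal.ofReal x) := by
    intro c hc
    refine ⟨dd (FK 0), dd_FK_mem 0, ?_⟩
    rw [locDim_zero subset_union_left (half_lt_dd 0)]
    refine ne_of_lt (lt_min one_pos ?_)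
    exact ENNReal.div_pos (ENNReal.ofReal_pos.2 hc).ne' ENNReal.ofReal_ne_top
  refine ⟨Ed, inferInstance, inferInstance, BS.toCIFS, ?_, ?_, ?_, ?_⟩
  · rw [hD]
    rintro ⟨n, I, hI, h⟩
    exact not_typeI subset_union_left (subset_refl _) I hI h
  · rw [hD]
    intro h
    have h1 : locDim Spec (1 / 2) ≤ dimH Spec :=
      (iInf₂_le 1 one_pos).trans (dimH_mono inter_subset_left)
    rw [locDim_one (subset_refl _), h] at h1
    simp at h1
  · rw [hD]
    rintro ⟨c, hc, _, h⟩
    obtain ⟨x, hx, hne⟩ := hpos c hc
    exact hne (h x hx)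
  · rw [hD]
    intro c hc
    rcases hc.eq_or_lt with h | h
    · refine ⟨1 / 2, mem_Spec_of_le (by norm_num) (le_refl _), ?_⟩
      rw [locDim_one (subset_refl _), ← h]
      simp
    · exact hpos c h

end Pool.Agent.Results.MP_b5d711_an.NoTrichotomy
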